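import Mathlib

/-!
# Order patterns of tent maps: local analysis in the parameter
-/

set_option autoImplicit false

open Set Filter Topology Function

namespace Pool.Agent.Q188.TP

/-- the symmetric tent map -/
noncomputable def tent (μ x : ℝ) : ℝ := 2 * μ * min x (1 - x)

lemma tent_left {μ x : ℝ} (h : x ≤ 1 / 2) : tent μ x = 2 * μ * x := by
  unfold tent; rw [min_eq_left (by linarith)]

lemma tent_right {μ x : ℝ} (h : 1 / 2 ≤ x) : tent μ x = 2 * μ * (1 - x) := by
  unfold tent; rw [min_eq_right (by linarith)]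

lemma cont_iter (m : ℕ) : Continuous fun p : ℝ × ℝ => (tent p.1)^[m] p.2 := by
  induction m with
  | zero => exact continuous_snd
  | succ m ih =>
    simp only [iterate_succ_apply']
    unfold tent at ih ⊢
    fun_prop

/-- the branches of the iterates -/
noncomputable def F (w : ℕ → Bool) : ℕ → ℝ → ℝ → ℝ
  | 0, _, x => x
  | m + 1, μ, x => if w m then 2 * μ * F w m μ x else 2 * μ * (1 - F w m μ x)

lemma F_cont (w : ℕ → Bool) (m : ℕ) : Continuous fun p : ℝ × ℝ => F w m p.1 p.2 := by
  induction m with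
  | zero => exact continuous_snd
  | succ m ih =>
    simp only [F]
    cases w m
    · simp only [Bool.false_eq_true, if_false]
      fun_prop
    · simp only [if_true]
      fun_prop

/-- the slopes -/
noncomputable def sg (w : ℕ → Bool) (r : ℕ) (μ : ℝ) : ℝ := if w r then 2 * μ else -(2 * μ)

lemma F_diff (w : ℕ → Bool) {t t' : ℕ} (h : w t = w t') (μ x : ℝ) :
    F w (t + 1) μ x - F w (t' + 1) μ x = sg w t μ * (F w t μ x - F w t' μ x) := by
  simp only [F, sg, ← h]
  cases w t
  · simp only [Bool.false_eq_true, if_false]; ring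
  · simp only [if_true]; ring

lemma F_diff' (w : ℕ → Bool) (t : ℕ) (μ x x' : ℝ) :
    F w (t + 1) μ x - F w (t + 1) μ x' = sg w t μ * (F w t μ x - F w t μ x') := by
  simp only [F, sg]
  cases w t
  · simp only [Bool.false_eq_true, if_false]; ring
  · simp only [if_true]; ring

/-- products of slopes -/
noncomputable def sl (w : ℕ → Bool) (a : ℕ) : ℕ → ℝ → ℝ
  | 0, _ => 1
  | k + 1, μ => sl w a k μ * sg w (a + k) μ

lemma sl_cont (w : ℕ → Bool) (a k : ℕ) : Continuous (sl w a k) := by
  induction k with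
  | zero => exact continuous_const
  | succ k ih =>
    simp only [sl, sg]
    cases w (a + k)
    · simp only [Bool.false_eq_true, if_false]; fun_prop
    · simp only [if_true]; fun_prop

lemma sl_abs (w : ℕ → Bool) (a k : ℕ) {μ : ℝ} (hμ : 0 < μ) : |sl w a k μ| = (2 * μ) ^ k := by
  induction k with
  | zero => simp [sl]
  | succ k ih =>
    rw [sl, abs_mul, ih, pow_succ, sg]
    split_ifs
    · rw [abs_of_pos (by positivity)]
    · rw [abs_neg, abs_of_pos (by positivity)]

lemma F_affine (w : ℕ → Bool) (m : ℕ) (μ x x' : ℝ) :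
    F w m μ x - F w m μ x' = sl w 0 m μ * (x - x') := by
  induction m with
  | zero => simp [F, sl]
  | succ m ih =>
    rw [F_diff', ih, sl, zero_add]
    ring

lemma sl_add (w : ℕ → Bool) (a k l : ℕ) (μ : ℝ) : sl w a (k + l) μ = sl w a k μ * sl w (a + k) l μ := by
  induction l with
  | zero => simp [sl]
  | succ l ih =>
    rw [← add_assoc, sl, ih, sl, ← add_assoc]
    ring

/-- the word is periodic with period `p` from `i₀` on, up to `n` -/
def PerW (w : ℕ → Bool) (i₀ p n : ℕ) : Prop := ∀ t, i₀ ≤ t → t + p + 1 < n → w t = w (t + p)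

lemma F_per {w : ℕ → Bool} {i₀ p n : ℕ} (hw : PerW w i₀ p n) (μ x : ℝ) :
    ∀ k, i₀ + k + p < n → F w (i₀ + k) μ x - F w (i₀ + k + p) μ x =
      sl w i₀ k μ * (F w i₀ μ x - F w (i₀ + p) μ x) := by
  intro k
  induction k with
  | zero => intro _; simp [sl]
  | succ k ih =>
    intro hk
    have h1 := F_diff w (hw (i₀ + k) (by omega) (by omega)) μ x
    rw [ih (by omega)] at h1
    rw [show i₀ + (k + 1) = i₀ + k + 1 by ring, show i₀ + k + 1 + p = i₀ + k + p + 1 by ring, h1, sl]
    ring

lemma sl_per {w : ℕ → Bool} {i₀ p n : ℕ} (hw : PerW w i₀ p n) (μ : ℝ) :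
    ∀ k, i₀ + k + p < n → sl w i₀ (k + p) μ = sl w i₀ k μ * sl w i₀ p μ := by
  intro k
  induction k with
  | zero => intro _; simp [sl]
  | succ k ih =>
    intro hk
    have h1 := hw (i₀ + k) (by omega) (by omega)
    rw [show k + 1 + p = (k + p) + 1 by ring, sl, ih (by omega), sl, ← add_assoc]
    unfold sg
    rw [← h1]
    ring

/-- the difference of two iterates which agree at the base point -/
lemma F_multiple {w : ℕ → Bool} {i₀ p n : ℕ} (hw : PerW w i₀ p n) (μ x : ℝ) (q : ℕ) :
    ∀ k, i₀ + k + q * p < n → F w (i₀ + k) μ x - F w (i₀ + k + q * p) μ x =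
      sl w i₀ k μ * (∑ l ∈ Finset.range q, sl w i₀ p μ ^ l) *
        (F w i₀ μ x - F w (i₀ + p) μ x) := by
  induction q with
  | zero => intro k _; simp
  | succ q ih =>
    intro k hk
    rw [add_mul, one_mul] at hk
    have h1 := F_per hw μ x k (by omega)
    rcases Nat.eq_zero_or_pos q with hq | hq
    · subst hq
      simp only [zero_add, one_mul, Finset.sum_range_one, pow_zero, mul_one]
      exact h1
    · have h0 : p ≤ q * p := Nat.le_mul_of_pos_left p hq
      have h2 := ih (k + p) (by omega)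
      have h3 := sl_per hw μ k (by omega)
      have e1 : i₀ + (k + p) = i₀ + k + p := by ring
      have e2 : i₀ + k + p + q * p = i₀ + k + (q + 1) * p := by ring
      rw [e1, e2, h3] at h2
      have h4 : F w (i₀ + k) μ x - F w (i₀ + k + (q + 1) * p) μ x =
          (F w (i₀ + k) μ x - F w (i₀ + k + p) μ x) +
          (F w (i₀ + k + p) μ x - F w (i₀ + k + (q + 1) * p) μ x) := by ring
      rw [h4, h1, h2, Finset.sum_range_succ', pow_zero]
      simp only [pow_succ]
      rw [← Finset.sum_mul]
      ring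

lemma geom_ne {S : ℝ} (hS : 1 < |S|) {q : ℕ} (hq : 1 ≤ q) : ∑ l ∈ Finset.range q, S ^ l ≠ 0 := by
  intro h
  have h1 := geom_sum_mul S q
  rw [h, zero_mul] at h1
  have h2 : |S ^ q| = 1 := by
    rw [show S ^ q = 1 by linarith, abs_one]
  rw [abs_pow] at h2
  have h3 := one_lt_pow₀ hS (by omega : q ≠ 0)
  linarith

end Pool.Agent.Q188.TP
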