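import Pool.Agent.Q188.TP.Step

/-!
# Order patterns of tent maps: all the patterns survive as long as the critical one does
-/

set_option autoImplicit false

open Set Filter Topology Function

namespace Pool.Agent.Q188.TP

lemma crit_of_lt {n : ℕ} {μ : ℝ} (hμ : 1 / 2 < μ) (hμ1 : μ < 1)
    (h : ∀ k, 1 ≤ k → k + 1 < n → (2 * μ) ^ k * (1 - μ) < 1 / 2) : Crit n μ := by
  have h1 : (tent μ)^[1] (1 / 2) = μ := by
    change tent μ (1 / 2) = μ
    rw [tent_left le_rfl]; ring
  have hk : ∀ k, 1 ≤ k → k + 1 < n → (tent μ)^[k + 1] (1 / 2) = (2 * μ) ^ k * (1 - μ) := by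
    intro k hk1
    induction k, hk1 using Nat.le_induction with
    | base =>
      intro _
      rw [iterate_succ_apply', h1, tent_right hμ.le, pow_one]
    | succ k hk1 ih =>
      intro hkn
      rw [iterate_succ_apply', ih (by omega), tent_left (h k hk1 (by omega)).le, pow_succ]
      ring
  have hlt : ∀ k, 1 ≤ k → k + 1 < n → (tent μ)^[k + 1] (1 / 2) < 1 / 2 := fun k h2 h3 => by
    rw [hk k h2 h3]; exact h k h2 h3
  constructor
  · intro a b ha hab hb
    obtain ⟨b, rfl⟩ : ∃ b', b = b' + 1 := ⟨b - 1, by omega⟩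
    have h2 := hlt b (by omega) hb
    rcases Nat.lt_or_ge 1 a with ha1 | ha1
    · obtain ⟨a, rfl⟩ : ∃ a', a = a' + 1 := ⟨a - 1, by omega⟩
      rw [hk a (by omega) (by omega), hk b (by omega) hb]
      have h3 : (2 * μ) ^ a < (2 * μ) ^ b := pow_lt_pow_right₀ (by linarith) (by omega)
      have h4 : (2 * μ) ^ a * (1 - μ) < (2 * μ) ^ b * (1 - μ) :=
        mul_lt_mul_of_pos_right h3 (by linarith)
      exact h4.ne
    · have : a = 1 := by omega
      subst this
      rw [h1]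
      intro h5
      rw [← h5] at h2
      linarith
  · intro a ha han
    rcases Nat.lt_or_ge 1 a with ha1 | ha1
    · obtain ⟨a, rfl⟩ : ∃ a', a = a' + 1 := ⟨a - 1, by omega⟩
      exact (hlt a (by omega) han).ne
    · have : a = 1 := by omega
      subst this
      rw [h1]
      exact hμ.ne'

lemma persist {n : ℕ} (π : Equiv.Perm (Fin n)) {μ₀ : ℝ} (hμ₀ : 1 / 2 < μ₀) (hμ₀1 : μ₀ < 1)
    (hcrit : ∀ μ, μ₀ ≤ μ → μ < 1 → Crit n μ) (h1 : ∃ x ∈ Icc (0 : ℝ) 1, P π 1 x) :
    ∃ x ∈ Icc (0 : ℝ) 1, P π μ₀ x := by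
  set u : Set ℝ := {μ | 1 / 2 < μ ∧ ∃ x ∈ Icc (0 : ℝ) 1, P π μ x} with hu
  have huo : IsOpen u := by
    rw [isOpen_iff_mem_nhds]
    rintro μ ⟨hμ, x, hx, hP⟩
    have h2 : ∀ᶠ ν in 𝓝 μ, ∀ ij : Fin n × Fin n, π ij.1 < π ij.2 →
        (tent ν)^[ij.1] x < (tent ν)^[ij.2] x := by
      refine eventually_all.2 fun ij => ?_
      by_cases h : π ij.1 < π ij.2
      · have hin : ∀ m : ℕ, Tendsto (fun ν : ℝ => (tent ν)^[m] x) (𝓝 μ) (𝓝 ((tent μ)^[m] x)) := by
          intro m
          exact ((cont_iter m).comp (Continuous.prodMk_left x)).tendsto μ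
        exact ((hin ij.1).eventually_lt (hin ij.2) (hP _ _ h)).mono fun ν hν _ => hν
      · exact Eventually.of_forall fun ν hν => absurd hν h
    filter_upwards [h2, lt_mem_nhds hμ] with ν hν1 hν2
    exact ⟨hν2, x, hx, fun i j hij => hν1 (i, j) hij⟩
  have h1u : (1 : ℝ) ∈ u := ⟨by norm_num, h1⟩
  obtain ⟨η, hη, hball⟩ := Metric.isOpen_iff.1 huo 1 h1u
  have hm : 0 < min (η / 2) (1 - μ₀) := lt_min (by positivity) (by linarith)
  set μ₁ := 1 - min (η / 2) (1 - μ₀) with hμ₁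
  have e1 : min (η / 2) (1 - μ₀) ≤ η / 2 := min_le_left _ _
  have e2 : min (η / 2) (1 - μ₀) ≤ 1 - μ₀ := min_le_right _ _
  have hμ₁u : μ₁ ∈ u := by
    apply hball
    rw [Metric.mem_ball, Real.dist_eq, abs_of_neg (by linarith)]
    linarith
  have hsub : Icc μ₀ μ₁ ⊆ u := by
    refine isPreconnected_Icc.subset_of_closure_inter_subset huo
      ⟨μ₁, ⟨by linarith, le_rfl⟩, hμ₁u⟩ ?_
    rintro μ ⟨hμcl, hμI⟩
    have hμ : 1 / 2 < μ := hμ₀.trans_le hμI.1
    have hμ1 : μ < 1 := by have := hμI.2; linarith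
    refine ⟨hμ, ?_⟩
    obtain ⟨a, hau, haμ⟩ := mem_closure_iff_seq_limit.1 hμcl
    choose ha1 x hxI hxP using hau
    obtain ⟨x₀, hx₀, φ, hφ, hlim⟩ := isCompact_Icc.tendsto_subseq hxI
    refine step π hμ hx₀ (hcrit μ hμI.1 hμ1) ?_
    have h3 : Tendsto (fun k => (a (φ k), x (φ k))) atTop (𝓝 (μ, x₀)) :=
      (haμ.comp hφ.tendsto_atTop).prodMk_nhds hlim
    exact h3.frequently (Eventually.of_forall fun k => ⟨ha1 _, hxI _, hxP _⟩).frequently
  exact (hsub ⟨le_rfl, by linarith⟩).2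

/-- quasi-concavity -/
lemma quasi {m : ℕ} {u₀ u : ℝ} (h0 : 1 < u₀) (hu : u₀ ≤ u)
    (h : u₀ ^ m * (2 - u₀) < 1) : u ^ m * (2 - u) < 1 := by
  by_contra hcon
  push Not at hcon
  have hu1 : 1 < u := h0.trans_le hu
  have hum : 0 < u ^ m := by positivity
  have hu0m : 0 < u₀ ^ m := by positivity
  -- `u₀ = (1 - t) + t u`
  set t := (u₀ - 1) / (u - 1) with ht
  have ht0 : 0 ≤ t := div_nonneg (by linarith) (by linarith)
  have ht1 : t ≤ 1 := by
    rw [ht, div_le_one (by linarith)]; linarith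
  have hu0 : u₀ = (1 - t) + t * u := by
    have : t * (u - 1) = u₀ - 1 := div_mul_cancel₀ _ (by linarith)
    linarith
  have hinv : 1 / u₀ ≤ (1 - t) * 1 + t * (1 / u) := by
    rw [div_le_iff₀ (by linarith)]
    have h1 : ((1 - t) * 1 + t * (1 / u)) * u₀ - 1 = t * (1 - t) * (u - 1) ^ 2 / u := by
      rw [hu0]
      field_simp
      ring
    have h2 : 0 ≤ t * (1 - t) * (u - 1) ^ 2 / u :=
      div_nonneg (mul_nonneg (mul_nonneg ht0 (by linarith)) (sq_nonneg _)) (by linarith)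
    linarith
  have hpow : (1 / u₀) ^ m ≤ ((1 - t) * 1 + t * (1 / u)) ^ m :=
    pow_le_pow_left₀ (by positivity) hinv m
  have hconv := (convexOn_pow (𝕜 := ℝ) m).2 (show (1 : ℝ) ∈ Ici (0 : ℝ) from by simp)
    (show 1 / u ∈ Ici (0 : ℝ) from by simp only [mem_Ici]; positivity)
    (by linarith : 0 ≤ 1 - t) ht0 (by ring)
  simp only [smul_eq_mul, one_pow, mul_one] at hconv hpow
  have h2 : (1 / u) ^ m ≤ 2 - u := by
    rw [div_pow, one_pow, div_le_iff₀ hum]
    linarith
  have h3 : (1 / u₀) ^ m ≤ 2 - u₀ := by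
    have : t * (1 / u) ^ m ≤ t * (2 - u) := mul_le_mul_of_nonneg_left h2 ht0
    have e : (1 - t) + t * (2 - u) = 2 - u₀ := by rw [hu0]; ring
    linarith
  rw [div_pow, one_pow, div_le_iff₀ hu0m] at h3
  linarith

/-- if the critical pattern is realised then the turning point stays on the left -/
lemma ineq_of_sigma {n : ℕ} (hn : 3 ≤ n) {μ x : ℝ} (hμ : 1 / 2 < μ)
    (hup : x < tent μ x) (hlow : ∀ k, 2 ≤ k → k < n → (tent μ)^[k] x < x) :
    (2 * μ) ^ (n - 2) * (1 - μ) < 1 / 2 := by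
  have hu1 : 1 < 2 * μ := by linarith
  have hfx : tent μ x ≤ μ := by
    unfold tent
    have : min x (1 - x) ≤ 1 / 2 := by
      rcases le_total x (1 / 2) with h | h
      · exact (min_le_left _ _).trans h
      · exact (min_le_right _ _).trans (by linarith)
    nlinarith
  have h2 : (tent μ)^[2] x = tent μ (tent μ x) := rfl
  have hf2 : tent μ (tent μ x) < x := by rw [← h2]; exact hlow 2 le_rfl (by omega)
  have hfx2 : 1 / 2 ≤ tent μ x := by
    by_contra hcon
    push Not at hcon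
    rw [tent_left hcon.le] at hf2
    -- `tent μ x > x`; positivity of `tent μ x`
    have hpos : 0 ≤ tent μ x := by
      by_contra h
      push Not at h
      have hx0 : x < 0 := hup.trans h
      rw [tent_left (by linarith)] at hup
      nlinarith
    nlinarith
  have he2 : (tent μ)^[2] x = 2 * μ * (1 - tent μ x) := by rw [h2, tent_right hfx2]
  -- the points before the last one are on the left
  have hleft : ∀ k, 2 ≤ k → k + 1 < n → (tent μ)^[k] x < 1 / 2 := by
    intro k hk hkn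
    by_contra hcon
    push Not at hcon
    have h3 := hlow k hk (by omega)
    have h4 := hlow (k + 1) (by omega) hkn
    rw [iterate_succ_apply', tent_right hcon] at h4
    have h5 : 1 / 2 < x := hcon.trans_lt h3
    rw [tent_right h5.le] at hup
    nlinarith
  have hform : ∀ k, 2 ≤ k → k < n → (tent μ)^[k] x = (2 * μ) ^ (k - 1) * (1 - tent μ x) := by
    intro k hk
    induction k, hk using Nat.le_induction with
    | base => intro _; rw [he2]; norm_num
    | succ k hk ih =>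
      intro hkn
      rw [iterate_succ_apply', tent_left (hleft k hk hkn).le, ih (by omega)]
      obtain ⟨l, rfl⟩ : ∃ l, k = l + 1 := ⟨k - 1, by omega⟩
      simp only [Nat.add_sub_cancel, pow_succ]
      ring
  have hlast := hlow (n - 1) (by omega) (by omega)
  rw [hform (n - 1) (by omega) (by omega), show n - 1 - 1 = n - 2 by omega] at hlast
  have hp1 : 1 < (2 * μ) ^ (n - 2) := one_lt_pow₀ hu1 (by omega)
  rcases le_total x (1 / 2) with h | h
  · have h3 : (2 * μ) ^ (n - 2) * (1 - μ) ≤ (2 * μ) ^ (n - 2) * (1 - tent μ x) :=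
      mul_le_mul_of_nonneg_left (by linarith) (by linarith)
    linarith
  · rw [tent_right h] at hlast
    -- affine in `x`
    rcases eq_or_lt_of_le h with h' | h'
    · rw [← h'] at hlast
      have : 1 - 2 * μ * (1 - 1 / 2) = 1 - μ := by ring
      rw [this] at hlast
      exact hlast
    · have h4 : (2 * μ) ^ (n - 2) * (1 - 2 * μ * (1 - x)) =
          (2 * μ) ^ (n - 2) * (1 - μ) + (2 * μ) ^ (n - 2) * (2 * μ) * (x - 1 / 2) := by ring
      rw [h4] at hlast
      have h5 : 1 < (2 * μ) ^ (n - 2) * (2 * μ) := by nlinarith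
      have h6 : 1 * (x - 1 / 2) < (2 * μ) ^ (n - 2) * (2 * μ) * (x - 1 / 2) :=
        mul_lt_mul_of_pos_right h5 (by linarith)
      linarith

/-- all the patterns of the full tent map survive if the critical pattern does -/
lemma main {n : ℕ} (hn : 2 ≤ n) {μ x : ℝ} (hμ : 1 / 2 < μ) (hμ1 : μ < 1)
    (hup : x < tent μ x) (hlow : ∀ k, 2 ≤ k → k < n → (tent μ)^[k] x < x)
    (π : Equiv.Perm (Fin n)) (h1 : ∃ x ∈ Icc (0 : ℝ) 1, P π 1 x) :
    ∃ x ∈ Icc (0 : ℝ) 1, P π μ x := by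
  refine persist π hμ hμ1 (fun ν hν hν1 => crit_of_lt (hμ.trans_le hν) hν1 fun k hk hkn => ?_) h1
  have h2 := ineq_of_sigma (by omega : 3 ≤ n) hμ hup hlow
  have h3 := quasi (m := n - 2) (u₀ := 2 * μ) (u := 2 * ν) (by linarith) (by linarith)
    (by linarith)
  have h4 : (2 * ν) ^ k ≤ (2 * ν) ^ (n - 2) := pow_le_pow_right₀ (by linarith) (by omega)
  have h5 : (2 * ν) ^ k * (1 - ν) ≤ (2 * ν) ^ (n - 2) * (1 - ν) :=
    mul_le_mul_of_nonneg_right h4 (by linarith)
  linarith

end Pool.Agent.Q188.TP
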