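import Pool.Agent.Q188.TP.Basic

/-!
# Order patterns of tent maps: persistence at a limit parameter
-/

set_option autoImplicit false

open Set Filter Topology Function

namespace Pool.Agent.Q188.TP

/-- the point `x` has the order pattern `π` -/
def P {n : ℕ} (π : Equiv.Perm (Fin n)) (μ x : ℝ) : Prop :=
  ∀ i j : Fin n, π i < π j → (tent μ)^[i] x < (tent μ)^[j] x

/-- the first iterates of the turning point are distinct -/
def Crit (n : ℕ) (μ : ℝ) : Prop :=
  (∀ a b, 1 ≤ a → a < b → b < n → (tent μ)^[a] (1 / 2) ≠ (tent μ)^[b] (1 / 2)) ∧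
  ∀ a, 1 ≤ a → a < n → (tent μ)^[a] (1 / 2) ≠ 1 / 2

/-- the itinerary -/
noncomputable def itin (μ x₀ : ℝ) (m : ℕ) : Bool := by
  classical exact decide ((tent μ)^[m] x₀ < 1 / 2)

lemma itin_true {μ x₀ : ℝ} {m : ℕ} (h : (tent μ)^[m] x₀ < 1 / 2) : itin μ x₀ m = true := by
  simp only [itin, decide_eq_true_eq]; exact h

lemma itin_false {μ x₀ : ℝ} {m : ℕ} (h : ¬ (tent μ)^[m] x₀ < 1 / 2) : itin μ x₀ m = false := by
  simp only [itin, decide_eq_false_iff_not]; exact h

lemma itin_congr {μ x₀ : ℝ} {m m' : ℕ} (h : (tent μ)^[m] x₀ = (tent μ)^[m'] x₀) :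
    itin μ x₀ m = itin μ x₀ m' := by
  unfold itin; rw [h]

lemma local_rep {μ x₀ : ℝ} {n : ℕ} (h : ∀ m, m + 1 < n → (tent μ)^[m] x₀ ≠ 1 / 2) :
    ∀ m, m < n → ∀ᶠ p : ℝ × ℝ in 𝓝 (μ, x₀),
      (tent p.1)^[m] p.2 = F (itin μ x₀) m p.1 p.2 := by
  intro m
  induction m with
  | zero => intro _; exact Eventually.of_forall fun p => rfl
  | succ m ih =>
    intro hm
    have h1 := ih (by omega)
    have hc := (cont_iter m).tendsto (μ, x₀)
    rcases lt_or_gt_of_ne (h m hm) with h2 | h2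
    · have h3 : ∀ᶠ p : ℝ × ℝ in 𝓝 (μ, x₀), (tent p.1)^[m] p.2 < 1 / 2 :=
        hc.eventually (gt_mem_nhds h2)
      filter_upwards [h1, h3] with p hp1 hp2
      rw [iterate_succ_apply', tent_left hp2.le, hp1, F, itin_true h2, if_pos rfl]
    · have h3 : ∀ᶠ p : ℝ × ℝ in 𝓝 (μ, x₀), 1 / 2 < (tent p.1)^[m] p.2 :=
        hc.eventually (lt_mem_nhds h2)
      filter_upwards [h1, h3] with p hp1 hp2
      rw [iterate_succ_apply', tent_right hp2.le, hp1, F, itin_false (not_lt.2 h2.le)]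
      simp

lemma step {n : ℕ} (π : Equiv.Perm (Fin n)) {μ x₀ : ℝ} (hμ : 1 / 2 < μ)
    (hx₀ : x₀ ∈ Icc (0 : ℝ) 1) (hcrit : Crit n μ)
    (hev : ∃ᶠ p : ℝ × ℝ in 𝓝 (μ, x₀), 1 / 2 < p.1 ∧ p.2 ∈ Icc (0 : ℝ) 1 ∧ P π p.1 p.2) :
    ∃ x ∈ Icc (0 : ℝ) 1, P π μ x := by
  have hweak : ∀ i j : Fin n, π i < π j → (tent μ)^[i] x₀ ≤ (tent μ)^[j] x₀ := by
    intro i j hij
    by_contra hcon
    push Not at hcon
    have h1 : ∀ᶠ p : ℝ × ℝ in 𝓝 (μ, x₀), (tent p.1)^[j] p.2 < (tent p.1)^[i] p.2 :=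
      ((cont_iter j).tendsto (μ, x₀)).eventually_lt ((cont_iter i).tendsto (μ, x₀)) hcon
    obtain ⟨p, hp1, hp2⟩ := (hev.and_eventually h1).exists
    exact absurd (hp1.2.2 i j hij) (not_lt.2 hp2.le)
  by_cases hs : P π μ x₀
  · exact ⟨x₀, hx₀, hs⟩
  set f := tent μ with hf
  have hex : ∃ i : ℕ, ∃ j, i < j ∧ j < n ∧ f^[i] x₀ = f^[j] x₀ := by
    unfold P at hs
    push Not at hs
    obtain ⟨i, j, hij, hle⟩ := hs
    have he := le_antisymm (hweak i j hij) hle
    have hne : (i : ℕ) ≠ (j : ℕ) := by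
      intro h
      have : i = j := Fin.ext h
      rw [this] at hij
      exact lt_irrefl _ hij
    rcases lt_or_gt_of_ne hne with h | h
    · exact ⟨i, j, h, j.2, he⟩
    · exact ⟨j, i, h, i.2, he.symm⟩
  classical
  set i₀ := Nat.find hex with hi₀
  obtain ⟨j₀, hij₀, hj₀n, hj₀⟩ := Nat.find_spec hex
  rw [← hi₀] at hij₀ hj₀
  set y := f^[i₀] x₀ with hy
  have hyper : IsPeriodicPt f (j₀ - i₀) y := by
    unfold IsPeriodicPt IsFixedPt
    rw [hy, ← iterate_add_apply, Nat.sub_add_cancel hij₀.le]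
    exact hj₀.symm
  set p := minimalPeriod f y with hp
  have hp0 : 0 < p := hyper.minimalPeriod_pos (by omega)
  have hpd : p ∣ j₀ - i₀ := hyper.minimalPeriod_dvd
  have hpn : i₀ + p < n := by
    have := Nat.le_of_dvd (by omega) hpd
    omega
  have hpy : f^[p] y = y := isPeriodicPt_minimalPeriod f y
  have hpyt : ∀ t, i₀ ≤ t → f^[t + p] x₀ = f^[t] x₀ := by
    intro t ht
    have e1 : f^[t] x₀ = f^[t - i₀] y := by
      rw [hy, ← iterate_add_apply, Nat.sub_add_cancel ht]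
    have e2 : f^[t + p] x₀ = f^[t - i₀] (f^[p] y) := by
      rw [hy, ← iterate_add_apply, ← iterate_add_apply]
      congr 1
      omega
    rw [e1, e2, hpy]
  have hF1 : ∀ i j, i < j → j < n → f^[i] x₀ = f^[j] x₀ → i₀ ≤ i ∧ p ∣ j - i := by
    intro i j hij hjn he
    have h1 : i₀ ≤ i := Nat.find_min' hex ⟨j, hij, hjn, he⟩
    refine ⟨h1, ?_⟩
    have e1 : f^[i] x₀ = f^[i - i₀] y := by
      rw [hy, ← iterate_add_apply, Nat.sub_add_cancel h1]
    have e2 : f^[j] x₀ = f^[j - i₀] y := by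
      rw [hy, ← iterate_add_apply, Nat.sub_add_cancel (h1.trans hij.le)]
    rw [e1, e2] at he
    set a := i - i₀ with ha
    have h2 : a ≤ a * p := Nat.le_mul_of_pos_right a hp0
    have h3 : f^[a * p - a] (f^[a] y) = y := by
      rw [← iterate_add_apply, Nat.sub_add_cancel h2, mul_comm, iterate_mul]
      exact Function.iterate_fixed hpy a
    have h4 : f^[a * p - a + (j - i₀)] y = y := by
      rw [iterate_add_apply, ← he, h3]
    have h5 : p ∣ a * p - a + (j - i₀) := IsPeriodicPt.minimalPeriod_dvd h4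
    have h6 : a * p - a + (j - i₀) = a * p + (j - i) := by omega
    rw [h6] at h5
    exact (Nat.dvd_add_right (Dvd.intro_left a rfl)).1 h5
  have hF2 : ∀ m, m + 1 < n → f^[m] x₀ ≠ 1 / 2 := by
    intro m hm he
    rcases Nat.lt_or_ge m i₀ with h1 | h1
    · apply hcrit.1 (i₀ - m) (i₀ + p - m) (by omega) (by omega) (by omega)
      rw [← he, ← hf, ← iterate_add_apply, ← iterate_add_apply, Nat.sub_add_cancel h1.le,
        Nat.sub_add_cancel (by omega)]
      exact (hpyt i₀ le_rfl).symm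
    · apply hcrit.2 p hp0 (by omega)
      rw [← he, ← hf, ← iterate_add_apply, add_comm]
      exact hpyt m h1
  set w := itin μ x₀ with hw
  have hPer : PerW w i₀ p n := fun t ht _ => (itin_congr (hpyt t ht)).symm
  have hrep := local_rep hF2
  rw [← hw] at hrep
  have hrep0 : ∀ m, m < n → f^[m] x₀ = F w m μ x₀ := fun m hm => (hrep m hm).self_of_nhds
  set δ : ℝ → ℝ → ℝ := fun μ' x => F w i₀ μ' x - F w (i₀ + p) μ' x with hδ
  have hδ0 : δ μ x₀ = 0 := by
    simp only [hδ]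
    rw [← hrep0 _ (by omega), ← hrep0 _ hpn, hpyt i₀ le_rfl, sub_self]
  have hS : 1 < |sl w i₀ p μ| := by
    rw [sl_abs w i₀ p (by linarith)]
    exact one_lt_pow₀ (by linarith) hp0.ne'
  have hC : ∀ i j, i < n → j < n → i ≠ j → f^[i] x₀ = f^[j] x₀ → ∃ c : ℝ → ℝ, Continuous c ∧
      c μ ≠ 0 ∧ ∀ μ' x, F w i μ' x - F w j μ' x = c μ' * δ μ' x := by
    have hlt : ∀ i j, i < j → j < n → f^[i] x₀ = f^[j] x₀ → ∃ c : ℝ → ℝ, Continuous c ∧
        c μ ≠ 0 ∧ ∀ μ' x, F w i μ' x - F w j μ' x = c μ' * δ μ' x := by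
      intro i j hij hjn he
      obtain ⟨h1, q, hq⟩ := hF1 i j hij hjn he
      have hq1 : 1 ≤ q := by
        rcases Nat.eq_zero_or_pos q with h | h
        · rw [h, mul_zero] at hq; omega
        · exact h
      refine ⟨fun μ' => sl w i₀ (i - i₀) μ' * ∑ l ∈ Finset.range q, sl w i₀ p μ' ^ l, ?_, ?_, ?_⟩
      · exact (sl_cont w i₀ _).mul (continuous_finsetSum _ fun l _ => (sl_cont w i₀ p).pow l)
      · refine mul_ne_zero ?_ (geom_ne hS hq1)
        rw [← abs_pos, sl_abs w i₀ _ (by linarith)]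
        positivity
      · intro μ' x
        have h2 := F_multiple hPer μ' x q (i - i₀) (by
          rw [mul_comm q p]; omega)
        rw [show i₀ + (i - i₀) = i by omega, mul_comm q p, show i + p * q = j by omega] at h2
        exact h2
    intro i j hi hj hne he
    rcases lt_or_gt_of_ne hne with h | h
    · exact hlt i j h hj he
    · obtain ⟨c, hc, hc0, hcc⟩ := hlt j i h hi he.symm
      refine ⟨fun μ' => -c μ', hc.neg, neg_ne_zero.2 hc0, fun μ' x => ?_⟩
      have := hcc μ' x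
      linarith
  -- the eventual conditions
  have hE1 : ∀ᶠ q : ℝ × ℝ in 𝓝 (μ, x₀), ∀ m : Fin n, (tent q.1)^[m] q.2 = F w m q.1 q.2 :=
    eventually_all.2 fun m => hrep m m.2
  have hC' : ∀ ij : Fin n × Fin n, ∃ c : ℝ → ℝ, Continuous c ∧ c μ ≠ 0 ∧
      (ij.1 ≠ ij.2 → f^[ij.1] x₀ = f^[ij.2] x₀ →
        ∀ μ' x, F w ij.1 μ' x - F w ij.2 μ' x = c μ' * δ μ' x) := by
    rintro ⟨i, j⟩
    by_cases h : i ≠ j ∧ f^[i] x₀ = f^[j] x₀
    · obtain ⟨c, h1, h2, h3⟩ := hC i j i.2 j.2 (fun h' => h.1 (Fin.ext h')) h.2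
      exact ⟨c, h1, h2, fun _ _ => h3⟩
    · exact ⟨fun _ => 1, continuous_const, one_ne_zero, fun h1 h2 => absurd ⟨h1, h2⟩ h⟩
  choose c hc hc0 hcc using hC'
  have hE2 : ∀ᶠ q : ℝ × ℝ in 𝓝 (μ, x₀), ∀ ij : Fin n × Fin n, 0 < c ij q.1 * c ij μ := by
    refine eventually_all.2 fun ij => ?_
    have h1 : Tendsto (fun q : ℝ × ℝ => c ij q.1 * c ij μ) (𝓝 (μ, x₀)) (𝓝 (c ij μ * c ij μ)) :=
      (((hc ij).comp continuous_fst).tendsto (μ, x₀)).mul_const _
    exact h1.eventually (lt_mem_nhds (mul_self_pos.2 (hc0 ij)))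
  obtain ⟨q, ⟨hq1, hqI, hqP⟩, hqE1, hqE2⟩ := (hev.and_eventually (hE1.and hE2)).exists
  have hδ' : δ q.1 q.2 ≠ 0 := by
    simp only [hδ]
    rw [← hqE1 ⟨i₀, by omega⟩, ← hqE1 ⟨i₀ + p, hpn⟩]
    have hne : π ⟨i₀, by omega⟩ ≠ π ⟨i₀ + p, hpn⟩ := by
      intro h
      have := congrArg Fin.val (π.injective h)
      simp only at this
      omega
    rcases lt_or_gt_of_ne hne with h | h
    · have := hqP _ _ h
      simp only at this ⊢
      linarith
    · have := hqP _ _ h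
      simp only at this ⊢
      linarith
  -- the affine dependence of `δ`
  have hδaff : ∀ x, δ μ x = sl w 0 i₀ μ * (1 - sl w i₀ p μ) * (x - x₀) := by
    intro x
    have h1 : δ μ x = δ μ x - δ μ x₀ := by rw [hδ0, sub_zero]
    rw [h1]
    simp only [hδ]
    have h2 := F_affine w i₀ μ x x₀
    have h3 := F_affine w (i₀ + p) μ x x₀
    rw [sl_add, zero_add] at h3
    linear_combination h2 - h3
  have ha : sl w 0 i₀ μ * (1 - sl w i₀ p μ) ≠ 0 := by
    refine mul_ne_zero ?_ ?_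
    · rw [← abs_pos, sl_abs w 0 _ (by linarith)]
      positivity
    · intro h
      have : sl w i₀ p μ = 1 := by linarith
      rw [this, abs_one] at hS
      exact lt_irrefl _ hS
  -- neighbourhood in `x`
  have hin : Tendsto (fun x : ℝ => (μ, x)) (𝓝 x₀) (𝓝 (μ, x₀)) :=
    (Continuous.prodMk_right μ).tendsto x₀
  have hA : ∀ᶠ x in 𝓝 x₀, (∀ m : Fin n, f^[m] x = F w m μ x) ∧
      ∀ ij : Fin n × Fin n, f^[ij.1] x₀ < f^[ij.2] x₀ → f^[ij.1] x < f^[ij.2] x := by
    refine (hin.eventually hE1).and (eventually_all.2 fun ij => ?_)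
    by_cases h : f^[ij.1] x₀ < f^[ij.2] x₀
    · have h1 : ∀ᶠ q : ℝ × ℝ in 𝓝 (μ, x₀), (tent q.1)^[ij.1] q.2 < (tent q.1)^[ij.2] q.2 :=
        ((cont_iter ij.1).tendsto (μ, x₀)).eventually_lt ((cont_iter ij.2).tendsto (μ, x₀)) h
      exact (hin.eventually h1).mono fun x hx _ => hx
    · exact Eventually.of_forall fun x hx => absurd hx h
  obtain ⟨η, hη, hball⟩ := Metric.eventually_nhds_iff.1 hA
  -- the choice of `x`
  have hneg : (x₀ = 0 ∨ x₀ = 1) → ∀ μ' : ℝ, 1 / 2 < μ' → ∀ x ∈ Icc (0 : ℝ) 1, δ μ' x ≤ 0 := by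
    intro h01 μ' hμ' x hx
    have hf0 : f 0 = 0 := by rw [hf, tent_left (by norm_num)]; ring
    have hf1 : f 1 = 0 := by rw [hf, tent_right (by norm_num)]; ring
    have hper1 : minimalPeriod f 0 = 1 := minimalPeriod_eq_one_iff_isFixedPt.2 hf0
    rcases h01 with h0 | h1
    · have hi0 : i₀ = 0 := by
        have : i₀ ≤ 0 := Nat.find_min' hex ⟨1, one_pos, by omega, by
          rw [h0]; exact hf0.symm⟩
        omega
      have hy0 : y = 0 := by rw [hy, hi0, h0]; rfl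
      have hp1 : p = 1 := by rw [hp, hy0]; exact hper1
      have hw0 : w 0 = true := itin_true (by
        change x₀ < 1 / 2
        rw [h0]; norm_num)
      simp only [hδ, hi0, hp1, zero_add, F, hw0, if_true]
      nlinarith [hx.1]
    · have hfm : ∀ m, f^[m + 1] x₀ = 0 := by
        intro m
        induction m with
        | zero => rw [h1]; exact hf1
        | succ m ih => rw [iterate_succ_apply', ih, hf0]
      have hi1 : i₀ ≠ 0 := by
        intro hcon
        obtain ⟨j, hj⟩ : ∃ j, j₀ = j + 1 := ⟨j₀ - 1, by omega⟩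
        have h2 := hj₀
        rw [hj, hfm j, hy, hcon] at h2
        have h3 : x₀ = 0 := h2
        rw [h1] at h3
        exact one_ne_zero h3
      have hi0 : i₀ = 1 := by
        have : i₀ ≤ 1 := Nat.find_min' hex ⟨2, by omega, by omega, by
          rw [hfm 0, hfm 1]⟩
        omega
      have hy0 : y = 0 := by rw [hy, hi0]; exact hfm 0
      have hp1 : p = 1 := by rw [hp, hy0]; exact hper1
      have hw0 : w 0 = false := itin_false (by
        change ¬ x₀ < 1 / 2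
        rw [h1]; norm_num)
      have hw1 : w 1 = true := itin_true (by
        rw [← hf, hfm 0]; norm_num)
      simp only [hδ, hi0, hp1]
      change F w 1 μ' x - F w 2 μ' x ≤ 0
      simp only [F, hw0, hw1, if_true, Bool.false_eq_true, if_false]
      have : 0 ≤ 2 * μ' * (1 - x) := mul_nonneg (by linarith) (by linarith [hx.2])
      nlinarith
  have hx : ∃ x ∈ Icc (0 : ℝ) 1, dist x x₀ < η ∧ 0 < δ μ x * δ q.1 q.2 := by
    by_cases h01 : x₀ = 0 ∨ x₀ = 1
    · have h1 : δ q.1 q.2 < 0 := lt_of_le_of_ne (hneg h01 q.1 hq1 q.2 hqI) hδ'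
      obtain ⟨x, hxI, hxd, hxne⟩ : ∃ x ∈ Icc (0 : ℝ) 1, dist x x₀ < η ∧ x ≠ x₀ := by
        have hm : 0 < min (η / 2) 1 := lt_min (by positivity) one_pos
        have hm1 : min (η / 2) 1 ≤ 1 := min_le_right _ _
        have hm2 : min (η / 2) 1 ≤ η / 2 := min_le_left _ _
        rcases h01 with h0 | h0
        · refine ⟨min (η / 2) 1, ⟨hm.le, hm1⟩, ?_, ?_⟩
          · rw [h0, Real.dist_eq, sub_zero, abs_of_pos hm]; linarith
          · rw [h0]; exact hm.ne'
        · refine ⟨1 - min (η / 2) 1, ⟨by linarith, by linarith⟩, ?_, ?_⟩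
          · rw [h0, Real.dist_eq, abs_of_neg (by linarith)]; linarith
          · rw [h0]; intro h; linarith
      have h2 : δ μ x ≠ 0 := by
        rw [hδaff]
        exact mul_ne_zero ha (sub_ne_zero.2 hxne)
      have h3 : δ μ x < 0 := lt_of_le_of_ne (hneg h01 μ hμ x hxI) h2
      exact ⟨x, hxI, hxd, mul_pos_of_neg_of_neg h3 h1⟩
    · push Not at h01
      have h0 : 0 < x₀ := lt_of_le_of_ne hx₀.1 (Ne.symm h01.1)
      have h1 : x₀ < 1 := lt_of_le_of_ne hx₀.2 h01.2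
      set A := sl w 0 i₀ μ * (1 - sl w i₀ p μ) with hAdef
      have hm : 0 < min (η / 2) (min x₀ (1 - x₀)) :=
        lt_min (by positivity) (lt_min h0 (by linarith))
      set ρ := min (η / 2) (min x₀ (1 - x₀)) with hρ
      have hρ1 : ρ ≤ η / 2 := min_le_left _ _
      have hρ2 : ρ ≤ x₀ := (min_le_right _ _).trans (min_le_left _ _)
      have hρ3 : ρ ≤ 1 - x₀ := (min_le_right _ _).trans (min_le_right _ _)
      rcases lt_or_gt_of_ne (mul_ne_zero ha hδ') with h2 | h2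
      · refine ⟨x₀ - ρ, ⟨by linarith, by linarith⟩, ?_, ?_⟩
        · rw [Real.dist_eq, abs_of_neg (by linarith)]; linarith
        · rw [hδaff]
          have : A * (x₀ - ρ - x₀) * δ q.1 q.2 = ρ * (-(A * δ q.1 q.2)) := by ring
          rw [this]
          exact mul_pos hm (by linarith)
      · refine ⟨x₀ + ρ, ⟨by linarith, by linarith⟩, ?_, ?_⟩
        · rw [Real.dist_eq, abs_of_pos (by linarith)]; linarith
        · rw [hδaff]
          have : A * (x₀ + ρ - x₀) * δ q.1 q.2 = ρ * (A * δ q.1 q.2) := by ring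
          rw [this]
          exact mul_pos hm h2
  obtain ⟨x, hxI, hxd, hxδ⟩ := hx
  obtain ⟨hxF, hxlt⟩ := hball hxd
  refine ⟨x, hxI, fun i j hij => ?_⟩
  rcases lt_or_eq_of_le (hweak i j hij) with h | h
  · exact hxlt (i, j) h
  · have hne : i ≠ j := by
      rintro rfl
      exact lt_irrefl _ hij
    have h1 := hcc (i, j) hne h
    have h2 := h1 μ x
    have h3 := h1 q.1 q.2
    simp only at h2 h3
    have h4 := hqP i j hij
    rw [hqE1 i, hqE1 j] at h4
    have h5 := hqE2 (i, j)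
    change f^[i] x < f^[j] x
    rw [hxF i, hxF j]
    have h6 : c (i, j) q.1 * δ q.1 q.2 < 0 := by linarith
    have h7 : 0 < (c (i, j) μ * δ μ x) * (c (i, j) q.1 * δ q.1 q.2) := by
      have : (c (i, j) μ * δ μ x) * (c (i, j) q.1 * δ q.1 q.2) =
          (c (i, j) q.1 * c (i, j) μ) * (δ μ x * δ q.1 q.2) := by ring
      rw [this]
      exact mul_pos h5 hxδ
    have h8 : c (i, j) μ * δ μ x < 0 := by
      by_contra hcon
      push Not at hcon
      have := mul_nonpos_of_nonneg_of_nonpos hcon h6.le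
      linarith
    linarith

end Pool.Agent.Q188.TP
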